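import Pool.Agent.P8H72.RE.Part

/-!
# MP_56a53b_an: relative embeddability over co-amenable subgroups fails

Question Q1 has a negative answer, already for `N = ℂ`: there are a countable group `Γ` and a
co-amenable subgroup `H` such that `L(H) ⊆ L(Γ)` is not RE/`L(H)`; it is not RE/`N'` for any tracial
QWEP von Neumann algebra `N'`.

`Γ` is the restricted wreath product of a residually finite Kazhdan group `G` with `ℤ`, and
`H` consists of the `(f, 0)` with `f k ∈ K` for `k < 0`, where `K ≤ G` is a Kazhdan subgroup,
conjugated into itself but not onto itself by elements that generate `G`. A relative embedding would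
give almost representations of `G` by unitary matrices, and finite-dimensional algebras `B` of matrices, such
that the unitaries of `K` are almost in `B ⊗ M_m` and those of `G \ K` almost orthogonal to it;
Kazhdan's property (T) excludes this.

Plan of the proof: helper68. Packages: helper5 (groups, finite form), helper7 (weighted matrix models),
helper16 (averaging, Cauchy-Schwarz), helper38 (matrix models of QWEP algebras), helper53 (uniform
weights), helper66 (Kaplansky, polar decomposition, tensor calculus), helper72 (definitions, from operators to
matrices, assembly), helper76 (finite sums of tensors, commuting squares), helper81 (exact matrix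
units, extraction), helper97 (contradiction for matrices, matrix units from finite groups).
-/

set_option autoImplicit false

namespace Pool.Agent.Results.MP_56a53b_an.NotRelativelyEmbeddable

open Pool.Agent.P8H72.RE
open Pool.Agent.N557.QWX (Op tr IsTracial IsHom)
open Pool.Agent.N859.QX (QWEP)

theorem result :
    ∃ (Γ : Type) (_ : Group Γ) (H : Subgroup Γ), Countable Γ ∧ CoAmenable H ∧
      ∃ (E : Type) (_ : NormedAddCommGroup E) (_ : InnerProductSpace ℂ E) (_ : CompleteSpace E)
        (M N : VonNeumannAlgebra E) (ξ : E) (u : Γ → Op E),
        IsGroupAlgebra M ξ u ∧ GeneratedBy N {z | ∃ h ∈ H, z = u h} ∧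
        (∃ (K : Type) (_ : NormedAddCommGroup K) (_ : InnerProductSpace ℂ K) (_ : CompleteSpace K)
          (N₁ : VonNeumannAlgebra K) (ζ : K) (v : H → Op K),
          IsGroupAlgebra N₁ ζ v ∧ QWEP N₁ ∧ ¬ RelativelyEmbeddable M N ξ N₁ ζ) ∧
        ∀ (K : Type) [NormedAddCommGroup K] [InnerProductSpace ℂ K] [CompleteSpace K]
          (N' : VonNeumannAlgebra K) (ζ : K), IsTracial N' ζ → QWEP N' →
          ¬ RelativelyEmbeddable M N ξ N' ζ :=
  final grp extr mid model finl

end Pool.Agent.Results.MP_56a53b_an.NotRelativelyEmbeddable
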